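import Pool.Agent.Helper28.VD.VD11a
import Pool.Agent.Helper68.VD.VD6

/-!
# VD-11b: the edges on the surfaces 0, 1, 4, 5
-/

namespace Pool.Agent.Helper13.Venn

open Set Metric Topology Bornology

namespace VD11b

/-- the signs of all six functions -/
noncomputable def sgn (p : E 5) (i : Fin 6) : SignType := SignType.sign (g i p)

/-- the sign vector is continuous on the model of the free part of a surface -/
theorem sgn_continuousOn (i : Fin 6) :
    ContinuousOn sgn {p : E 5 | p ≠ 0 ∧ g i p = 0 ∧ ∀ j, j ≠ i → g j p ≠ 0} := by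
  rw [continuousOn_pi]
  intro j
  by_cases hj : j = i
  · subst hj
    refine (continuousOn_const (c := (0 : SignType))).congr ?_
    intro p hp
    simp only [sgn]
    rw [hp.2.1, sign_zero]
  · intro p hp
    have h0 : g j p ≠ 0 := hp.2.2 j hj
    have h1 : ContinuousAt (fun q : E 5 => SignType.sign (g j q)) p :=
      (continuousAt_sign_of_ne_zero h0).comp (continuous_g j).continuousAt
    exact h1.continuousWithinAt

theorem sgn_smul (t : ℝ) (p : E 5) (ht : 0 < t) : sgn (t • p) = sgn p := by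
  funext j
  simp only [sgn]
  rw [g_smul j t ht p]
  rcases lt_trichotomy (g j p) 0 with h | h | h
  · rw [sign_neg h, sign_neg (mul_neg_of_pos_of_neg ht h)]
  · rw [h, mul_zero]
  · rw [sign_pos h, sign_pos (mul_pos ht h)]

/-- the value `1` or `-1` -/
noncomputable def pm (b : Bool) : ℝ := if b then 1 else -1

/-- the sign `1` or `-1` -/
def sb (b : Bool) : SignType := if b then 1 else -1

theorem sb_ne (b : Bool) : sb b ≠ 0 := by
  cases b <;> decide

theorem sign_pm (b : Bool) : SignType.sign (pm b) = sb b := by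
  cases b
  · simp [pm, sb]
  · simp [pm, sb]

theorem sign_of_if {b : Bool} {r : ℝ} (h : if b then 0 < r else r < 0) :
    SignType.sign r = sb b := by
  cases b
  · have h' : r < 0 := by simpa using h
    simp [sb, sign_neg h']
  · have h' : 0 < r := by simpa using h
    simp [sb, sign_pos h']

/-- counting with a sign vector -/
theorem count_sgn (ι : E 4 → E 5) (hι : IsEmbedding ι)
    (hr : range ι = {p : E 5 | ‖p‖ = 1 ∧ p ≠ pInf}) (i : Fin 6) {α : Type} [Fintype α]
    (lab : α → Fin 6 → SignType) (hinj : Function.Injective lab) (hi : ∀ a, lab a i = 0)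
    (hj : ∀ a j, j ≠ i → lab a j ≠ 0) (hex : ∀ a, ∃ p : E 5, ∀ j, sgn p j = lab a j) :
    (Fintype.card α : ℕ∞) ≤
      ENat.card (ConnectedComponents (free (fun i => {y : E 4 | g i (ι y) = 0}) i)) := by
  choose s hs using hex
  have hlab : ∀ a, sgn (s a) = lab a := fun a => funext (hs a)
  have hne : ∀ a j, j ≠ i → g j (s a) ≠ 0 := by
    intro a j hji h0
    apply hj a j hji
    rw [← hs a j]
    simp only [sgn]
    rw [h0, sign_zero]
  refine count_components ι hι hr i sgn (sgn_continuousOn i) (fun t p ht => sgn_smul t p ht) s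
    ?_ ?_
  · intro a
    refine ⟨?_, ?_, hne a⟩
    · intro h0
      -- the point zero has all signs zero
      obtain ⟨j, hji⟩ : ∃ j : Fin 6, j ≠ i := exists_ne i
      apply hne a j hji
      have h1 := g_smul j 2 two_pos (0 : E 5)
      rw [smul_zero] at h1
      rw [h0]
      linarith
    · have h1 := hs a i
      rw [hi a] at h1
      simp only [sgn] at h1
      exact sign_eq_zero_iff.1 h1
  · intro a b hab
    apply hinj
    simp only [hlab] at hab
    exact hab

/-- signs of the last two functions for the four positions -/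
def s4 (k : Fin 4) : SignType := if k = 0 ∨ k = 2 then 1 else -1

/-- signs of the last two functions for the four positions -/
def s5 (k : Fin 4) : SignType := if k = 0 ∨ k = 3 then 1 else -1

theorem exists_vs_sign (x y z : ℝ) (hU : 0 < FU x y z) (hL : 0 < FL x y z) (σ : Bool)
    (k : Fin 4) : ∃ v s : ℝ, SignType.sign v = sb σ ∧ SignType.sign s = s4 k ∧
      SignType.sign (s - hgt x y z v) = s5 k := by
  obtain ⟨v, s, hv, hk⟩ := exists_vs x y z hU hL σ k
  refine ⟨v, s, sign_of_if hv, ?_⟩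
  fin_cases k
  · have h : 0 < s ∧ 0 < s - hgt x y z v := hk
    exact ⟨sign_pos h.1, sign_pos h.2⟩
  · have h : s < 0 ∧ s - hgt x y z v < 0 := hk
    exact ⟨sign_neg h.1, sign_neg h.2⟩
  · have h : 0 < s ∧ s - hgt x y z v < 0 := hk
    exact ⟨sign_pos h.1, sign_neg h.2⟩
  · have h : s < 0 ∧ 0 < s - hgt x y z v := hk
    exact ⟨sign_neg h.1, sign_pos h.2⟩

/-- signs of a point with given coordinates -/
theorem sgn_mk (x y z v s : ℝ) :
    sgn (!₂[x, y, z, v, s] : E 5) =
      ![SignType.sign x, SignType.sign y, SignType.sign z, SignType.sign v, SignType.sign s,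
        SignType.sign (s - hgt x y z v)] := by
  funext j
  fin_cases j <;> simp [sgn, g]

/-- the label for `edges0` -/
def lab0 (a : Bool × Bool × Bool × Fin 4) : Fin 6 → SignType :=
  ![0, sb a.1, sb a.2.1, sb a.2.2.1, s4 a.2.2.2, s5 a.2.2.2]

/-- the label for `edges1` -/
def lab1 (a : Bool × Bool × Bool × Fin 4) : Fin 6 → SignType :=
  ![sb a.1, 0, sb a.2.1, sb a.2.2.1, s4 a.2.2.2, s5 a.2.2.2]

/-- the label for `edges4` -/
def lab4 (a : Bool × Bool × Bool × Bool × Bool) : Fin 6 → SignType :=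
  ![sb a.1, sb a.2.1, sb a.2.2.1, sb a.2.2.2.1, 0, sb a.2.2.2.2]

/-- the label for `edges5` -/
def lab5 (a : Bool × Bool × Bool × Bool × Bool) : Fin 6 → SignType :=
  ![sb a.1, sb a.2.1, sb a.2.2.1, sb a.2.2.2.1, sb a.2.2.2.2, 0]

theorem sb_inj : Function.Injective sb := by
  intro a b h
  revert h
  cases a <;> cases b <;> decide

theorem s45_inj {k k' : Fin 4} (h4 : s4 k = s4 k') (h5 : s5 k = s5 k') : k = k' := by
  revert k k'
  decide

theorem lab0_inj : Function.Injective lab0 := by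
  rintro ⟨a, b, c, k⟩ ⟨a', b', c', k'⟩ h
  have h1 : sb a = sb a' := congrFun h 1
  have h2 : sb b = sb b' := congrFun h 2
  have h3 : sb c = sb c' := congrFun h 3
  have h4 : s4 k = s4 k' := congrFun h 4
  have h5 : s5 k = s5 k' := congrFun h 5
  rw [sb_inj h1, sb_inj h2, sb_inj h3, s45_inj h4 h5]

theorem lab1_inj : Function.Injective lab1 := by
  rintro ⟨a, b, c, k⟩ ⟨a', b', c', k'⟩ h
  have h1 : sb a = sb a' := congrFun h 0
  have h2 : sb b = sb b' := congrFun h 2
  have h3 : sb c = sb c' := congrFun h 3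
  have h4 : s4 k = s4 k' := congrFun h 4
  have h5 : s5 k = s5 k' := congrFun h 5
  rw [sb_inj h1, sb_inj h2, sb_inj h3, s45_inj h4 h5]

theorem lab4_inj : Function.Injective lab4 := by
  rintro ⟨a, b, c, d, e⟩ ⟨a', b', c', d', e'⟩ h
  have h0 : sb a = sb a' := congrFun h 0
  have h1 : sb b = sb b' := congrFun h 1
  have h2 : sb c = sb c' := congrFun h 2
  have h3 : sb d = sb d' := congrFun h 3
  have h5 : sb e = sb e' := congrFun h 5
  rw [sb_inj h0, sb_inj h1, sb_inj h2, sb_inj h3, sb_inj h5]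

theorem lab5_inj : Function.Injective lab5 := by
  rintro ⟨a, b, c, d, e⟩ ⟨a', b', c', d', e'⟩ h
  have h0 : sb a = sb a' := congrFun h 0
  have h1 : sb b = sb b' := congrFun h 1
  have h2 : sb c = sb c' := congrFun h 2
  have h3 : sb d = sb d' := congrFun h 3
  have h4 : sb e = sb e' := congrFun h 4
  rw [sb_inj h0, sb_inj h1, sb_inj h2, sb_inj h3, sb_inj h4]

theorem s4_ne (k : Fin 4) : s4 k ≠ 0 := by revert k; decide

theorem s5_ne (k : Fin 4) : s5 k ≠ 0 := by revert k; decide

/-- positivity of both contact functions away from the curve -/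
theorem FU_pos (x y z : ℝ) (h : |y - 2 * x| + |z| - x > 0) (hz : z ≠ 0) : 0 < FU x y z := by
  have h1 : 0 < |z| := abs_pos.2 hz
  unfold FU phi
  refine lt_min ?_ ?_
  · have h3 : (0 : ℝ) ≤ max 0 (2 * x - y) := le_max_left _ _
    have h4 : (0 : ℝ) < |(|y - 2 * x| + |z| - x)| := abs_pos.2 h.ne'
    linarith
  · have h5 : 0 ≤ |y - x| := abs_nonneg _
    have h6 : 0 ≤ |x| - x := by linarith [le_abs_self x]
    linarith

theorem FL_pos (x y z : ℝ) (h : |y - 2 * x| + |z| - x > 0) (hz : z ≠ 0) : 0 < FL x y z := by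
  have h1 : 0 < |z| := abs_pos.2 hz
  unfold FL phi
  refine lt_min ?_ ?_
  · have h3 : (0 : ℝ) ≤ max 0 (y - 2 * x) := le_max_left _ _
    have h4 : (0 : ℝ) < |(|y - 2 * x| + |z| - x)| := abs_pos.2 h.ne'
    linarith
  · have h5 : 0 ≤ |y - 3 * x| := abs_nonneg _
    have h6 : 0 ≤ |x| - x := by linarith [le_abs_self x]
    linarith

theorem abs_pm (b : Bool) : |pm b| = 1 := by
  cases b <;> simp [pm]

theorem pm_ne (b : Bool) : pm b ≠ 0 := by
  cases b <;> simp [pm]

theorem pm_le (b : Bool) : pm b ≤ 1 := (le_abs_self _).trans (abs_pm b).le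

theorem sign_five_pm (b : Bool) : SignType.sign (5 * pm b) = sb b := by
  cases b
  · have h : (5 : ℝ) * pm false < 0 := by simp [pm]
    rw [sign_neg h]
    rfl
  · have h : (0 : ℝ) < 5 * pm true := by simp [pm]
    rw [sign_pos h]
    rfl

end VD11b

open VD11b

theorem edges0 (ι : E 4 → E 5) (hι : IsEmbedding ι)
    (hr : range ι = {p : E 5 | ‖p‖ = 1 ∧ p ≠ pInf}) :
    (32 : ℕ∞) ≤
      ENat.card (ConnectedComponents (free (fun i => {y : E 4 | g i (ι y) = 0}) 0)) := by
  have h := count_sgn ι hι hr 0 lab0 lab0_inj (fun _ => rfl) ?_ ?_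
  · have hc : Fintype.card (Bool × Bool × Bool × Fin 4) = 32 := by decide
    rw [hc] at h
    exact_mod_cast h
  · rintro ⟨a, b, c, k⟩ j hj
    fin_cases j
    · exact absurd rfl hj
    · exact sb_ne a
    · exact sb_ne b
    · exact sb_ne c
    · exact s4_ne k
    · exact s5_ne k
  · rintro ⟨a, b, c, k⟩
    have hz : pm b ≠ 0 := pm_ne b
    have hp : |pm a - 2 * 0| + |pm b| - 0 > 0 := by
      rw [abs_pm b]
      have := abs_nonneg (pm a - 2 * 0)
      linarith
    obtain ⟨v, s, h1, h2, h3⟩ := exists_vs_sign 0 (pm a) (pm b) (FU_pos _ _ _ hp hz)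
      (FL_pos _ _ _ hp hz) c k
    refine ⟨!₂[0, pm a, pm b, v, s], fun j => ?_⟩
    rw [sgn_mk, h1, h2, h3, sign_pm, sign_pm, sign_zero]
    rfl

theorem edges1 (ι : E 4 → E 5) (hι : IsEmbedding ι)
    (hr : range ι = {p : E 5 | ‖p‖ = 1 ∧ p ≠ pInf}) :
    (32 : ℕ∞) ≤
      ENat.card (ConnectedComponents (free (fun i => {y : E 4 | g i (ι y) = 0}) 1)) := by
  have h := count_sgn ι hι hr 1 lab1 lab1_inj (fun _ => rfl) ?_ ?_
  · have hc : Fintype.card (Bool × Bool × Bool × Fin 4) = 32 := by decide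
    rw [hc] at h
    exact_mod_cast h
  · rintro ⟨a, b, c, k⟩ j hj
    fin_cases j
    · exact sb_ne a
    · exact absurd rfl hj
    · exact sb_ne b
    · exact sb_ne c
    · exact s4_ne k
    · exact s5_ne k
  · rintro ⟨a, b, c, k⟩
    have hz : pm b ≠ 0 := pm_ne b
    have hp : |0 - 2 * pm a| + |pm b| - pm a > 0 := by
      have h1 : |0 - 2 * pm a| = 2 := by
        rw [zero_sub, abs_neg, abs_mul, abs_pm a]
        norm_num
      rw [abs_pm b, h1]
      have := pm_le a
      linarith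
    obtain ⟨v, s, h1, h2, h3⟩ := exists_vs_sign (pm a) 0 (pm b) (FU_pos _ _ _ hp hz)
      (FL_pos _ _ _ hp hz) c k
    refine ⟨!₂[pm a, 0, pm b, v, s], fun j => ?_⟩
    rw [sgn_mk, h1, h2, h3, sign_pm, sign_pm, sign_zero]
    rfl

namespace VD11b

/-- the octant points are outside the curve -/
theorem octant (a b : Bool) (z : ℝ) (hz : |z| = 5) :
    |5 * pm b - 2 * pm a| + |z| - pm a > 0 := by
  rw [hz]
  have h1 := pm_le a
  have h2 := abs_nonneg (5 * pm b - 2 * pm a)
  linarith

/-- a point `v` of given sign at which the height has a given sign -/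
theorem exists_v (a b c σ τ : Bool) : ∃ v : ℝ, SignType.sign v = sb σ ∧
    SignType.sign (hgt (pm a) (5 * pm b) (5 * pm c) v) = sb τ := by
  have hz0 : |5 * pm c| = 5 := by rw [abs_mul, abs_pm c]; norm_num
  have hz : 5 * pm c ≠ 0 := mul_ne_zero (by norm_num) (pm_ne c)
  have hp := octant a b (5 * pm c) hz0
  have hU := FU_pos _ _ _ hp hz
  have hL := FL_pos _ _ _ hp hz
  cases τ
  · obtain ⟨v, s, h1, h2⟩ := exists_vs _ _ _ hU hL σ 3
    have h3 : s < 0 ∧ 0 < s - hgt (pm a) (5 * pm b) (5 * pm c) v := h2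
    refine ⟨v, sign_of_if h1, ?_⟩
    rw [sign_neg (by linarith [h3.1, h3.2])]
    rfl
  · obtain ⟨v, s, h1, h2⟩ := exists_vs _ _ _ hU hL σ 2
    have h3 : 0 < s ∧ s - hgt (pm a) (5 * pm b) (5 * pm c) v < 0 := h2
    refine ⟨v, sign_of_if h1, ?_⟩
    rw [sign_pos (by linarith [h3.1, h3.2])]
    rfl

theorem sb_not (b : Bool) : sb (!b) = - sb b := by
  cases b <;> decide

end VD11b

theorem edges4 (ι : E 4 → E 5) (hι : IsEmbedding ι)
    (hr : range ι = {p : E 5 | ‖p‖ = 1 ∧ p ≠ pInf}) :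
    (32 : ℕ∞) ≤
      ENat.card (ConnectedComponents (free (fun i => {y : E 4 | g i (ι y) = 0}) 4)) := by
  have h := count_sgn ι hι hr 4 lab4 lab4_inj (fun _ => rfl) ?_ ?_
  · have hc : Fintype.card (Bool × Bool × Bool × Bool × Bool) = 32 := by decide
    rw [hc] at h
    exact_mod_cast h
  · rintro ⟨a, b, c, d, e⟩ j hj
    fin_cases j
    · exact sb_ne a
    · exact sb_ne b
    · exact sb_ne c
    · exact sb_ne d
    · exact absurd rfl hj
    · exact sb_ne e
  · rintro ⟨a, b, c, d, e⟩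
    obtain ⟨v, h1, h2⟩ := exists_v a b c d (!e)
    refine ⟨!₂[pm a, 5 * pm b, 5 * pm c, v, 0], fun j => ?_⟩
    have h3 : SignType.sign (0 - hgt (pm a) (5 * pm b) (5 * pm c) v) = sb e := by
      rw [zero_sub, Left.sign_neg, h2, sb_not, neg_neg]
    rw [sgn_mk, h1, h3, sign_pm, sign_five_pm, sign_five_pm, sign_zero]
    rfl

theorem edges5 (ι : E 4 → E 5) (hι : IsEmbedding ι)
    (hr : range ι = {p : E 5 | ‖p‖ = 1 ∧ p ≠ pInf}) :
    (32 : ℕ∞) ≤
      ENat.card (ConnectedComponents (free (fun i => {y : E 4 | g i (ι y) = 0}) 5)) := by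
  have h := count_sgn ι hι hr 5 lab5 lab5_inj (fun _ => rfl) ?_ ?_
  · have hc : Fintype.card (Bool × Bool × Bool × Bool × Bool) = 32 := by decide
    rw [hc] at h
    exact_mod_cast h
  · rintro ⟨a, b, c, d, e⟩ j hj
    fin_cases j
    · exact sb_ne a
    · exact sb_ne b
    · exact sb_ne c
    · exact sb_ne d
    · exact sb_ne e
    · exact absurd rfl hj
  · rintro ⟨a, b, c, d, e⟩
    obtain ⟨v, h1, h2⟩ := exists_v a b c d e
    refine ⟨!₂[pm a, 5 * pm b, 5 * pm c, v, hgt (pm a) (5 * pm b) (5 * pm c) v], fun j => ?_⟩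
    rw [sgn_mk, h1, h2, sign_pm, sign_five_pm, sign_five_pm, sub_self, sign_zero]
    rfl

end Pool.Agent.Helper13.Venn
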